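import Pool.Agent.H47.TC.Sl2

/-!
# Project TC, modules INV, LMT, SIX
-/

open Complex Metric Set Filter Topology

namespace Pool.Agent.H63.TC

attribute [local irreducible] P

/-- `P` at half lattice points depends on the parities only -/
lemma inv_half (hP : PdfStmt) {τ : ℂ} (hτ : 0 < τ.im) (m n m' n' : ℤ) (hm : Even (m - m'))
    (hn : Even (n - n')) : P τ ((m * τ + n) / 2) = P τ ((m' * τ + n') / 2) := by
  obtain ⟨x, hx⟩ := hm
  obtain ⟨y, hy⟩ := hn
  have e : ((m * τ + n) / 2 : ℂ) = (m' * τ + n') / 2 + (x * τ + y) := by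
    have hm2 : (m : ℂ) = m' + 2 * x := by
      have : m = m' + 2 * x := by omega
      exact_mod_cast this
    have hn2 : (n : ℂ) = n' + 2 * y := by
      have : n = n' + 2 * y := by omega
      exact_mod_cast this
    rw [hm2, hn2]; ring
  rw [e]
  exact sl2_P_add_lat hP hτ (lat_int τ x y) _

lemma inv_not_lat_half {τ : ℂ} (hτ : 0 < τ.im) (m n : ℤ) (h : ¬ (Even m ∧ Even n)) :
    ¬ Lat τ ((m * τ + n) / 2) := by
  have e : ((m * τ + n) / 2 : ℂ) = ((m / 2 : ℝ) : ℂ) * τ + ((n / 2 : ℝ) : ℂ) := by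
    push_cast; ring
  rw [e, lat_leaf hτ]
  rintro ⟨⟨x, hx⟩, ⟨y, hy⟩⟩
  apply h
  constructor
  · refine ⟨x, ?_⟩
    have : (m : ℝ) = ((x + x : ℤ) : ℝ) := by push_cast; linarith
    exact_mod_cast this
  · refine ⟨y, ?_⟩
    have : (n : ℝ) = ((y + y : ℤ) : ℝ) := by push_cast; linarith
    exact_mod_cast this

lemma inv_e1 (τ : ℂ) : e1 τ = P τ (((1 : ℤ) * τ + (0 : ℤ)) / 2) := by
  unfold e1; congr 1; push_cast; ring

lemma inv_e2 (τ : ℂ) : e2 τ = P τ (((1 : ℤ) * τ + (1 : ℤ)) / 2) := by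
  unfold e2; congr 1; push_cast; ring

lemma inv_e3 (τ : ℂ) : e3 τ = P τ (((0 : ℤ) * τ + (1 : ℤ)) / 2) := by
  unfold e3; congr 1; push_cast; ring

/-- the values at the half periods after a modular transformation -/
lemma inv_trans (hS : Sl2Stmt) {a b c d : ℤ} (h : a * d - b * c = 1) {τ : ℂ}
    (hτ : 0 < τ.im) : ∃ κ : ℂ,
      (∀ z, ¬ Lat τ z → P ((a * τ + b) / (c * τ + d)) (z / (c * τ + d)) =
        (c * τ + d) ^ 2 * P τ z + κ) ∧
      e1 ((a * τ + b) / (c * τ + d)) = (c * τ + d) ^ 2 * P τ ((a * τ + b) / 2) + κ ∧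
      e2 ((a * τ + b) / (c * τ + d)) = (c * τ + d) ^ 2 * P τ (((a + c : ℤ) * τ + (b + d : ℤ)) / 2)
        + κ ∧
      e3 ((a * τ + b) / (c * τ + d)) = (c * τ + d) ^ 2 * P τ ((c * τ + d) / 2) + κ := by
  have hd := denom_ne_zero h hτ
  obtain ⟨κ, hκ⟩ := hS a b c d h τ hτ
  refine ⟨κ, hκ, ?_, ?_, ?_⟩
  · rw [← hκ _ (inv_not_lat_half hτ a b (by
      rintro ⟨⟨x, rfl⟩, ⟨y, rfl⟩⟩
      have : 2 * ((x * d) - y * c) = 1 := by linarith
      omega))]
    unfold e1
    congr 1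
    field_simp
  · rw [← hκ _ (inv_not_lat_half hτ (a + c) (b + d) (by
      rintro ⟨⟨x, hx⟩, ⟨y, hy⟩⟩
      have ha : a = 2 * x - c := by omega
      have hb : b = 2 * y - d := by omega
      rw [ha, hb] at h
      have : 2 * (x * d - y * c) = 1 := by linarith
      omega))]
    unfold e2
    congr 1
    push_cast
    have hX : ((a * τ + b) / (c * τ + d) : ℂ) * (c * τ + d) = a * τ + b := div_mul_cancel₀ _ hd
    rw [eq_div_iff hd]
    linear_combination (1 / 2 : ℂ) * hX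
  · rw [← hκ _ (inv_not_lat_half hτ c d (by
      rintro ⟨⟨x, rfl⟩, ⟨y, rfl⟩⟩
      have : 2 * (a * y - b * x) = 1 := by linarith
      omega))]
    unfold e3
    congr 1
    field_simp

theorem inv (hS : Sl2Stmt) (hP : PdfStmt) : InvStmt := by
  rintro a b c d m n ⟨h, ha, hb, hc, hd⟩ q ⟨hτ, hu⟩
  have hd0 := denom_ne_zero h hτ
  have hτ' := act_im_pos h hτ
  set τ' : ℂ := (a * q.1 + b) / (c * q.1 + d) with hτ'def
  have hact : act a b c d m n q = (τ', q.2 / (c * q.1 + d) + 2 * m * τ' + 2 * n) := rfl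
  have hlat : ¬ Lat τ' (q.2 / (c * q.1 + d)) := fun g => hu ((lat_act h hτ _).1 g)
  refine ⟨?_, ?_⟩
  · rw [hact]
    refine ⟨hτ', fun g => hlat ?_⟩
    have e : q.2 / (c * q.1 + d) + 2 * m * τ' + 2 * n =
        q.2 / (c * q.1 + d) + (((2 * m : ℤ) : ℂ) * τ' + ((2 * n : ℤ) : ℂ)) := by push_cast; ring
    simp only [e] at g
    exact (lat_add_iff (lat_int τ' (2 * m) (2 * n))).1 g
  · rw [hact]
    obtain ⟨κ, hκ, h1, h2, h3⟩ := inv_trans hS h hτ
    rw [← hτ'def] at hκ h1 h2 h3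
    have g1 : P q.1 ((a * q.1 + b) / 2) = e1 q.1 := by
      rw [inv_e1]
      exact inv_half hP hτ a b 1 0 (ha.sub_odd odd_one) (by simpa using hb)
    have g3 : P q.1 ((c * q.1 + d) / 2) = e3 q.1 := by
      rw [inv_e3]
      exact inv_half hP hτ c d 0 1 (by simpa using hc) (hd.sub_odd odd_one)
    have g2 : P q.1 (((a + c : ℤ) * q.1 + (b + d : ℤ)) / 2) = e2 q.1 := by
      rw [inv_e2]
      exact inv_half hP hτ (a + c) (b + d) 1 1 ((ha.add_even hc).sub_odd odd_one)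
        ((hb.add_odd hd).sub_odd odd_one)
    rw [g1] at h1
    rw [g2] at h2
    rw [g3] at h3
    have hsq : (c * q.1 + d) ^ 2 ≠ 0 := pow_ne_zero 2 hd0
    have g4 : P τ' ((q.2 / (c * q.1 + d) + 2 * m * τ' + 2 * n) / 2) =
        (c * q.1 + d) ^ 2 * P q.1 (q.2 / 2) + κ := by
      rw [← hκ _ (not_lat_div_two hu)]
      have e : (q.2 / (c * q.1 + d) + 2 * m * τ' + 2 * n) / 2 =
          q.2 / 2 / (c * q.1 + d) + (m * τ' + n) := by ring
      rw [e]
      exact sl2_P_add_lat hP hτ' (lat_int τ' m n) _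
    have hlam : lam τ' = lam q.1 := by
      unfold lam
      rw [h1, h2, h3]
      have e1' : (c * q.1 + d) ^ 2 * e3 q.1 + κ - ((c * q.1 + d) ^ 2 * e1 q.1 + κ) =
          (c * q.1 + d) ^ 2 * (e3 q.1 - e1 q.1) := by ring
      have e2' : (c * q.1 + d) ^ 2 * e2 q.1 + κ - ((c * q.1 + d) ^ 2 * e1 q.1 + κ) =
          (c * q.1 + d) ^ 2 * (e2 q.1 - e1 q.1) := by ring
      rw [e1', e2', mul_div_mul_left _ _ hsq]
    have hyy : yy τ' (q.2 / (c * q.1 + d) + 2 * m * τ' + 2 * n) = yy q.1 q.2 := by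
      unfold yy
      rw [g4, h1, h2]
      have e1' : (c * q.1 + d) ^ 2 * P q.1 (q.2 / 2) + κ - ((c * q.1 + d) ^ 2 * e1 q.1 + κ) =
          (c * q.1 + d) ^ 2 * (P q.1 (q.2 / 2) - e1 q.1) := by ring
      have e2' : (c * q.1 + d) ^ 2 * e2 q.1 + κ - ((c * q.1 + d) ^ 2 * e1 q.1 + κ) =
          (c * q.1 + d) ^ 2 * (e2 q.1 - e1 q.1) := by ring
      rw [e1', e2', mul_div_mul_left _ _ hsq]
    unfold Phi
    simp only
    rw [hlam, hyy]

theorem lmt (hI : InvStmt) (hL : LmdStmt) : LmtStmt := by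
  rintro a b c d hG τ hτ
  have h := hG.1
  have key : ∀ σ : ℂ, 0 < σ.im → lam ((a * σ + b) / (c * σ + d)) = lam σ := by
    intro σ hσ
    have := (hI a b c d 0 0 hG (σ, σ / 2) ⟨hσ, not_lat_half1 hσ⟩).2
    exact congrArg Prod.fst this
  refine ⟨key τ hτ, ?_⟩
  have hd0 := denom_ne_zero h hτ
  have hτ' := act_im_pos h hτ
  have h1 : HasDerivAt (fun σ : ℂ => (a * σ + b) / (c * σ + d)) (1 / (c * τ + d) ^ 2) τ := by
    have hn : HasDerivAt (fun σ : ℂ => (a * σ + b : ℂ)) (a * 1) τ :=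
      ((hasDerivAt_id τ).const_mul (a : ℂ)).add_const _
    have hdn : HasDerivAt (fun σ : ℂ => (c * σ + d : ℂ)) (c * 1) τ :=
      ((hasDerivAt_id τ).const_mul (c : ℂ)).add_const _
    have h' : (a : ℂ) * d - b * c = 1 := by exact_mod_cast h
    have e : (a * 1 * (c * τ + d) - (a * τ + b) * (c * 1) : ℂ) = 1 := by
      linear_combination h'
    have h5 := hn.fun_div hdn hd0
    rw [e] at h5
    exact h5
  have h2 := (hL _ hτ').1.hasDerivAt.comp τ h1
  have h3 := (hL τ hτ).1.hasDerivAt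
  have hev : (lam ∘ fun σ : ℂ => (a * σ + b) / (c * σ + d)) =ᶠ[𝓝 τ] lam := by
    have : ∀ᶠ σ : ℂ in 𝓝 τ, 0 < σ.im :=
      (isOpen_lt continuous_const Complex.continuous_im).mem_nhds hτ
    filter_upwards [this] with σ hσ
    exact key σ hσ
  have h4 := (h2.congr_of_eventuallyEq hev.symm).unique h3
  have hsq : (c * τ + d : ℂ) ^ 2 ≠ 0 := pow_ne_zero 2 hd0
  rw [mul_one_div, div_eq_iff hsq] at h4
  rw [h4]
  ring

theorem six (hS : Sl2Stmt) (hP : PdfStmt) (hH : HlfStmt) : SixStmt := by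
  intro a b c d h τ hτ
  obtain ⟨κ, -, h1, h2, h3⟩ := inv_trans hS h hτ
  obtain ⟨n12, n13, n23, -⟩ := hH τ hτ
  have hd0 := denom_ne_zero h hτ
  have hsq : (c * τ + d : ℂ) ^ 2 ≠ 0 := pow_ne_zero 2 hd0
  have hlam : lam ((a * τ + b) / (c * τ + d)) =
      (P τ ((c * τ + d) / 2) - P τ ((a * τ + b) / 2)) /
      (P τ (((a + c : ℤ) * τ + (b + d : ℤ)) / 2) - P τ ((a * τ + b) / 2)) := by
    unfold lam
    rw [h1, h2, h3]
    have e1' : (c * τ + d) ^ 2 * P τ ((c * τ + d) / 2) + κ -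
        ((c * τ + d) ^ 2 * P τ ((a * τ + b) / 2) + κ) =
        (c * τ + d) ^ 2 * (P τ ((c * τ + d) / 2) - P τ ((a * τ + b) / 2)) := by ring
    have e2' : (c * τ + d) ^ 2 * P τ (((a + c : ℤ) * τ + (b + d : ℤ)) / 2) + κ -
        ((c * τ + d) ^ 2 * P τ ((a * τ + b) / 2) + κ) =
        (c * τ + d) ^ 2 * (P τ (((a + c : ℤ) * τ + (b + d : ℤ)) / 2) - P τ ((a * τ + b) / 2)) := by
      ring
    rw [e1', e2', mul_div_mul_left _ _ hsq]
  -- the values
  have v1 : ∀ m n : ℤ, Odd m → Even n → P τ ((m * τ + n) / 2) = e1 τ := by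
    intro m n hm hn
    rw [inv_e1]
    exact inv_half hP hτ m n 1 0 (hm.sub_odd odd_one) (by simpa using hn)
  have v2 : ∀ m n : ℤ, Odd m → Odd n → P τ ((m * τ + n) / 2) = e2 τ := by
    intro m n hm hn
    rw [inv_e2]
    exact inv_half hP hτ m n 1 1 (hm.sub_odd odd_one) (hn.sub_odd odd_one)
  have v3 : ∀ m n : ℤ, Even m → Odd n → P τ ((m * τ + n) / 2) = e3 τ := by
    intro m n hm hn
    rw [inv_e3]
    exact inv_half hP hτ m n 0 1 (by simpa using hm) (hn.sub_odd odd_one)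
  have m12 := sub_ne_zero.2 n12
  have m13 := sub_ne_zero.2 n13
  have m23 := sub_ne_zero.2 n23
  have m21 := sub_ne_zero.2 n12.symm
  have m31 := sub_ne_zero.2 n13.symm
  have m32 := sub_ne_zero.2 n23.symm
  have hl0 : lam τ ≠ 0 := div_ne_zero m31 m21
  have hl1 : 1 - lam τ = (e2 τ - e3 τ) / (e2 τ - e1 τ) := by
    unfold lam
    rw [eq_div_iff m21, sub_mul, div_mul_cancel₀ _ m21]
    ring
  have hl2 : lam τ - 1 = (e3 τ - e2 τ) / (e2 τ - e1 τ) := by
    unfold lam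
    rw [eq_div_iff m21, sub_mul, div_mul_cancel₀ _ m21]
    ring
  have hdet : Odd (a * d - b * c) := by rw [h]; exact odd_one
  rw [hlam]
  simp only [mem_insert_iff, mem_singleton_iff]
  rcases Int.even_or_odd a with ha | ha <;> rcases Int.even_or_odd b with hb | hb <;>
    rcases Int.even_or_odd c with hc | hc <;> rcases Int.even_or_odd d with hd | hd
  -- a even, b even: impossible
  · exact absurd hdet (by rw [Int.not_odd_iff_even]; exact (ha.mul_right d).sub (hb.mul_right c))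
  · exact absurd hdet (by rw [Int.not_odd_iff_even]; exact (ha.mul_right d).sub (hb.mul_right c))
  · exact absurd hdet (by rw [Int.not_odd_iff_even]; exact (ha.mul_right d).sub (hb.mul_right c))
  · exact absurd hdet (by rw [Int.not_odd_iff_even]; exact (ha.mul_right d).sub (hb.mul_right c))
  -- a even, b odd, c even
  · exact absurd hdet (by rw [Int.not_odd_iff_even]; exact (ha.mul_right d).sub (hc.mul_left b))
  · exact absurd hdet (by rw [Int.not_odd_iff_even]; exact (ha.mul_right d).sub (hc.mul_left b))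
  -- a even, b odd, c odd, d even
  · rw [v3 a b ha hb, v1 c d hc hd, v2 _ _ (ha.add_odd hc) (hb.add_even hd)]
    right; right; right; right; left
    rw [hl2]
    unfold lam
    rw [div_div_div_cancel_right₀ m21]
    rw [← neg_sub (e3 τ) (e1 τ), ← neg_sub (e3 τ) (e2 τ), neg_div_neg_eq]
  -- a even, b odd, c odd, d odd
  · rw [v3 a b ha hb, v2 c d hc hd, v1 _ _ (ha.add_odd hc) (hb.add_odd hd)]
    right; right; right; right; right
    rw [hl2]
    unfold lam
    rw [div_div_div_cancel_right₀ m21]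
    rw [← neg_sub (e3 τ) (e1 τ), ← neg_sub (e3 τ) (e2 τ), neg_div_neg_eq]
  -- a odd, b even, c even, d even
  · exact absurd hdet (by rw [Int.not_odd_iff_even]; exact (hd.mul_left a).sub (hb.mul_right c))
  -- a odd, b even, c even, d odd
  · rw [v1 a b ha hb, v3 c d hc hd, v2 _ _ (ha.add_even hc) (hb.add_odd hd)]
    left
    rfl
  -- a odd, b even, c odd, d even
  · exact absurd hdet (by rw [Int.not_odd_iff_even]; exact (hd.mul_left a).sub (hb.mul_right c))
  -- a odd, b even, c odd, d odd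
  · rw [v1 a b ha hb, v2 c d hc hd, v3 _ _ (ha.add_odd hc) (hb.add_odd hd)]
    right; right; left
    unfold lam
    rw [one_div_div]
  -- a odd, b odd, c even, d even
  · exact absurd hdet (by rw [Int.not_odd_iff_even]; exact (hd.mul_left a).sub (hc.mul_left b))
  -- a odd, b odd, c even, d odd
  · rw [v2 a b ha hb, v3 c d hc hd, v1 _ _ (ha.add_even hc) (hb.add_odd hd)]
    right; left
    rw [hl1, ← neg_sub (e2 τ) (e3 τ), ← neg_sub (e2 τ) (e1 τ), neg_div_neg_eq]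
  -- a odd, b odd, c odd, d even
  · rw [v2 a b ha hb, v1 c d hc hd, v3 _ _ (ha.add_odd hc) (hb.add_even hd)]
    right; right; right; left
    rw [hl1, one_div_div, ← neg_sub (e2 τ) (e1 τ), ← neg_sub (e2 τ) (e3 τ), neg_div_neg_eq]
  -- all odd
  · exact absurd hdet (by rw [Int.not_odd_iff_even]; exact (ha.mul hd).sub_odd (hb.mul hc))

end Pool.Agent.H63.TC
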