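import Pool.Agent.H63.TC.Stmts

/-!
# Project TC, module SL2: transformation law of `P`
-/

open Complex Metric Set Filter Topology

namespace Pool.Agent.H63.TC

attribute [local irreducible] P

lemma sl2_slice_cont {g : ℂ × ℂ → ℂ} {x y : ℂ} (h : ContinuousAt g (x, y)) :
    ContinuousAt (fun z => g (x, z)) y :=
  ContinuousAt.comp (g := g) (f := fun z => (x, z)) h (by fun_prop)

lemma sl2_slice_diff {g : ℂ × ℂ → ℂ} {x y : ℂ} (h : DifferentiableAt ℂ g (x, y)) :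
    DifferentiableAt ℂ (fun z => g (x, z)) y :=
  DifferentiableAt.comp (g := g) (f := fun z => (x, z)) y h (by fun_prop)

lemma sl2_scale_diff {g : ℂ → ℂ} {δ y : ℂ} (h : DifferentiableAt ℂ g (y / δ)) :
    DifferentiableAt ℂ (fun z => g (z / δ)) y :=
  DifferentiableAt.comp (g := g) (f := fun z => z / δ) y h (by fun_prop)

/-- `P` is periodic with respect to the lattice -/
lemma sl2_P_add_lat (hP : PdfStmt) {τ : ℂ} (hτ : 0 < τ.im) {w : ℂ} (hw : Lat τ w) (z : ℂ) :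
    P τ (z + w) = P τ z := by
  obtain ⟨m, n, rfl⟩ := hw
  have h1 : Function.Periodic (P τ) 1 := fun z => (hP.2 τ hτ z).1
  have h2 : Function.Periodic (P τ) τ := fun z => (hP.2 τ hτ z).2.1
  have h3 := (h2.int_mul m) z
  have h4 := (h1.int_mul n) (z + m * τ)
  rw [mul_one] at h4
  rw [← add_assoc, h4, h3]

/-- elementary estimate for the sine -/
lemma sl2_sin_aux {s : ℂ} (h0 : s ≠ 0) (h1 : ‖s‖ ≤ 1) :
    ‖1 / (Complex.sin s) ^ 2 - 1 / s ^ 2‖ ≤ 1 := by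
  have hs : 0 < ‖s‖ := norm_pos_iff.2 h0
  have hb := Complex.sin_bound h1
  have hsin : ‖Complex.sin s - s‖ ≤ ‖s‖ ^ 3 / 5 := by
    have e : Complex.sin s - s = (Complex.sin s - (s - s ^ 3 / 6)) - s ^ 3 / 6 := by ring
    have h3 : ‖s ^ 3 / 6‖ = ‖s‖ ^ 3 / 6 := by simp
    have h5 : ‖s‖ ^ 5 ≤ ‖s‖ ^ 3 := pow_le_pow_of_le_one hs.le h1 (by norm_num)
    calc ‖Complex.sin s - s‖ ≤ ‖Complex.sin s - (s - s ^ 3 / 6)‖ + ‖s ^ 3 / 6‖ := by
          rw [e]; exact norm_sub_le _ _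
      _ ≤ ‖s‖ ^ 5 / 100 + ‖s‖ ^ 3 / 6 := by rw [h3]; linarith
      _ ≤ ‖s‖ ^ 3 / 5 := by nlinarith [pow_pos hs 3]
  have h31 : ‖s‖ ^ 3 ≤ ‖s‖ := by
    calc ‖s‖ ^ 3 ≤ ‖s‖ ^ 1 := pow_le_pow_of_le_one hs.le h1 (by norm_num)
      _ = ‖s‖ := pow_one _
  have hlow : 4 / 5 * ‖s‖ ≤ ‖Complex.sin s‖ := by
    have e : s = Complex.sin s - (Complex.sin s - s) := by ring
    have h := norm_sub_le (Complex.sin s) (Complex.sin s - s)
    rw [← e] at h
    linarith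
  have hup : ‖s + Complex.sin s‖ ≤ 11 / 5 * ‖s‖ := by
    have e : s + Complex.sin s = 2 * s + (Complex.sin s - s) := by ring
    calc ‖s + Complex.sin s‖ ≤ ‖2 * s‖ + ‖Complex.sin s - s‖ := by rw [e]; exact norm_add_le _ _
      _ ≤ 2 * ‖s‖ + ‖s‖ ^ 3 / 5 := by
          have : ‖2 * s‖ = 2 * ‖s‖ := by simp
          rw [this]; linarith
      _ ≤ 11 / 5 * ‖s‖ := by linarith
  have hsn : Complex.sin s ≠ 0 := by
    rw [← norm_pos_iff]
    linarith
  have e : 1 / (Complex.sin s) ^ 2 - 1 / s ^ 2 =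
      (s - Complex.sin s) * (s + Complex.sin s) / (s ^ 2 * (Complex.sin s) ^ 2) := by
    field_simp
    ring
  rw [e, norm_div, norm_mul, norm_mul, norm_pow, norm_pow, norm_sub_rev s]
  rw [div_le_one (by positivity)]
  have h6 : (4 / 5 * ‖s‖) ^ 2 ≤ ‖Complex.sin s‖ ^ 2 := by
    apply pow_le_pow_left₀ (by positivity) hlow
  calc ‖Complex.sin s - s‖ * ‖s + Complex.sin s‖ ≤ (‖s‖ ^ 3 / 5) * (11 / 5 * ‖s‖) :=
        mul_le_mul hsin hup (norm_nonneg _) (by positivity)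
    _ ≤ ‖s‖ ^ 2 * (4 / 5 * ‖s‖) ^ 2 := by nlinarith [pow_pos hs 4]
    _ ≤ ‖s‖ ^ 2 * ‖Complex.sin s‖ ^ 2 := by
        apply mul_le_mul_of_nonneg_left h6 (by positivity)

lemma sl2_sin_pole {z : ℂ} (h0 : z ≠ 0) (h1 : ‖z‖ ≤ 1 / 4) :
    ‖(Real.pi : ℂ) ^ 2 / (Complex.sin (Real.pi * z)) ^ 2 - 1 / z ^ 2‖ ≤ 16 := by
  have hpi : (Real.pi : ℂ) ≠ 0 := by exact_mod_cast Real.pi_ne_zero
  have h2 : ‖(Real.pi : ℂ) * z‖ ≤ 1 := by
    rw [norm_mul, Complex.norm_real, Real.norm_eq_abs, abs_of_pos Real.pi_pos]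
    nlinarith [Real.pi_lt_four, Real.pi_pos, norm_nonneg z]
  have h := sl2_sin_aux (mul_ne_zero hpi h0) h2
  have e : (Real.pi : ℂ) ^ 2 / (Complex.sin (Real.pi * z)) ^ 2 - 1 / z ^ 2 =
      (Real.pi : ℂ) ^ 2 * (1 / (Complex.sin (Real.pi * z)) ^ 2 - 1 / ((Real.pi : ℂ) * z) ^ 2) := by
    rw [mul_sub, mul_one_div, mul_pow]
    congr 1
    field_simp
  rw [e, norm_mul, norm_pow, Complex.norm_real, Real.norm_eq_abs, abs_of_pos Real.pi_pos]
  calc Real.pi ^ 2 * ‖1 / (Complex.sin (Real.pi * z)) ^ 2 - 1 / ((Real.pi : ℂ) * z) ^ 2‖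
      ≤ Real.pi ^ 2 * 1 := mul_le_mul_of_nonneg_left h (by positivity)
    _ ≤ 16 := by nlinarith [Real.pi_lt_four, Real.pi_pos]

/-- the pole of `P` at the origin -/
lemma sl2_pole (hR : PrgStmt) {τ : ℂ} (hτ : 0 < τ.im) :
    ∃ r > 0, ∃ C : ℝ, ∀ z, z ≠ 0 → ‖z‖ < r → ‖P τ z - 1 / z ^ 2‖ ≤ C := by
  have hopen : IsOpen {q : ℂ × ℂ | 0 < q.1.im ∧ |q.2.im| < q.1.im} := by
    apply IsOpen.inter
    · exact isOpen_lt continuous_const (Complex.continuous_im.comp continuous_fst)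
    · exact isOpen_lt (Complex.continuous_im.comp continuous_snd).abs
        (Complex.continuous_im.comp continuous_fst)
  have hmem : ((τ, 0) : ℂ × ℂ) ∈ {q : ℂ × ℂ | 0 < q.1.im ∧ |q.2.im| < q.1.im} := by
    refine ⟨hτ, ?_⟩
    simpa using hτ
  have hc := (hR.differentiableAt (hopen.mem_nhds hmem)).continuousAt
  have hc2 : ContinuousAt (fun z : ℂ => P τ z -
      (Real.pi : ℂ) ^ 2 / (Complex.sin (Real.pi * z)) ^ 2) 0 := sl2_slice_cont hc
  have h4 := hc2.norm.eventually (gt_mem_nhds (lt_add_one _))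
  obtain ⟨r, hr, hr'⟩ := Metric.eventually_nhds_iff.1 h4
  refine ⟨min r (1 / 4), lt_min hr (by norm_num), ?_, fun z hz hzr => ?_⟩
  · exact ‖P τ 0 - (Real.pi : ℂ) ^ 2 / (Complex.sin (Real.pi * 0)) ^ 2‖ + 1 + 16
  · have h5 := hr' (y := z) (by
      rw [dist_zero_right]
      exact lt_of_lt_of_le hzr (min_le_left _ _))
    have h6 := sl2_sin_pole hz (hzr.le.trans (min_le_right _ _))
    have e : P τ z - 1 / z ^ 2 = (P τ z - (Real.pi : ℂ) ^ 2 / (Complex.sin (Real.pi * z)) ^ 2) +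
        ((Real.pi : ℂ) ^ 2 / (Complex.sin (Real.pi * z)) ^ 2 - 1 / z ^ 2) := by ring
    rw [e]
    refine (norm_add_le _ _).trans (add_le_add h5.le h6)

lemma sl2_diffAt (hP : PdfStmt) {τ z : ℂ} (hτ : 0 < τ.im) (hz : ¬ Lat τ z) :
    DifferentiableAt ℂ (P τ) z := by
  have h := hP.1.differentiableAt (isOpen_YY.mem_nhds (⟨hτ, hz⟩ : ((τ, z) : ℂ × ℂ) ∈ YY))
  exact sl2_slice_diff h

theorem sl2 (hL : LioStmt) (hP : PdfStmt) (hR : PrgStmt) : Sl2Stmt := by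
  intro a b c d h τ hτ
  set δ : ℂ := c * τ + d with hδ
  have hδ0 : δ ≠ 0 := denom_ne_zero h hτ
  set τ' : ℂ := (a * τ + b) / δ with hτ'
  have hτ'0 : 0 < τ'.im := act_im_pos h hτ
  have hden : δ * (a - c * τ') = 1 := act_denom h hτ
  have h' : (a : ℂ) * d - b * c = 1 := by exact_mod_cast h
  have e1 : 1 / δ = -(c : ℂ) * τ' + a := by
    rw [div_eq_iff hδ0]
    linear_combination -hden
  have e2 : τ / δ = d * τ' - b := by
    rw [div_eq_iff hδ0]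
    have : τ' * δ = a * τ + b := div_mul_cancel₀ _ hδ0
    linear_combination (-(d : ℂ)) * this + (-τ) * h' + (b : ℂ) * hδ
  have hl : ∀ z, Lat τ' (z / δ) ↔ Lat τ z := fun z => lat_act h hτ z
  have hf := hL 1 τ ?_ (fun z => P τ' (z / δ) - δ ^ 2 * P τ z) ?_ ?_ ?_ ?_
  · obtain ⟨κ, hκ⟩ := hf
    refine ⟨κ, fun z hz => ?_⟩
    have := hκ z (by
      rintro ⟨m, n, e⟩
      exact hz ⟨n, m, by rw [e]; ring⟩)
    linear_combination this
  · intro x y hxy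
    have him := congrArg Complex.im hxy
    simp at him
    have hy : y = 0 := him.resolve_right hτ.ne'
    have hre := congrArg Complex.re hxy
    simp [hy] at hre
    exact ⟨hre, hy⟩
  · intro z
    have g1 : (z + 1) / δ = z / δ + (-(c : ℂ) * τ' + a) := by rw [add_div, e1]
    have g2 : P τ' ((z + 1) / δ) = P τ' (z / δ) := by
      rw [g1]
      exact sl2_P_add_lat hP hτ'0 ⟨-c, a, by push_cast; ring⟩ _
    simp only [g2, (hP.2 τ hτ z).1]
  · intro z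
    have g1 : (z + τ) / δ = z / δ + (d * τ' - b) := by rw [add_div, e2]
    have g2 : P τ' ((z + τ) / δ) = P τ' (z / δ) := by
      rw [g1]
      exact sl2_P_add_lat hP hτ'0 ⟨d, -b, by push_cast; ring⟩ _
    simp only [g2, (hP.2 τ hτ z).2.1]
  · intro z hz
    have hz' : ¬ Lat τ z := by
      rintro ⟨m, n, e⟩
      exact hz ⟨n, m, by rw [e]; ring⟩
    have g1 := sl2_diffAt hP hτ hz'
    have g2 : DifferentiableAt ℂ (P τ') (z / δ) := sl2_diffAt hP hτ'0 (fun g => hz' ((hl z).1 g))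
    have g3 : DifferentiableAt ℂ (fun z => P τ' (z / δ)) z := sl2_scale_diff g2
    exact (g3.sub (g1.const_mul _)).differentiableWithinAt
  · obtain ⟨r, hr, C, hC⟩ := sl2_pole hR hτ
    obtain ⟨r', hr', C', hC'⟩ := sl2_pole hR hτ'0
    have hn : 0 < ‖δ‖ := norm_pos_iff.2 hδ0
    refine ⟨min r (r' * ‖δ‖), lt_min hr (by positivity), C' + ‖δ‖ ^ 2 * C, fun z hz hzr => ?_⟩
    have g1 := hC z hz (lt_of_lt_of_le hzr (min_le_left _ _))
    have g2 := hC' (z / δ) (div_ne_zero hz hδ0) (by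
      rw [norm_div, div_lt_iff₀ hn]
      exact lt_of_lt_of_le hzr (min_le_right _ _))
    have e : P τ' (z / δ) - δ ^ 2 * P τ z =
        (P τ' (z / δ) - 1 / (z / δ) ^ 2) - δ ^ 2 * (P τ z - 1 / z ^ 2) := by
      field_simp
      ring
    simp only [e]
    refine (norm_sub_le _ _).trans (add_le_add g2 ?_)
    rw [norm_mul, norm_pow]
    exact mul_le_mul_of_nonneg_left g1 (by positivity)

end Pool.Agent.H63.TC
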